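import Mathlib
import Pool.Agent.W262.S3.Stm
import Pool.Agent.W262.TW.Rat3
import Pool.Agent.W311.TW.Red3
import Pool.Agent.W623.SecC.Pts

/-! S3-ARITH: from sections to square classes over the rational numbers. -/

set_option autoImplicit false

namespace Pool.Agent.W405.S3

open Pool.Agent.W620.SC Pool.Agent.W262.TW Pool.Agent.W623.SecE Pool.Agent.W262.S3 Polynomial

universe v w

section loc

variable {A : Type} [CommRing A] [IsDomain A] [IsDiscreteValuationRing A] [Algebra A ℚ]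
  [IsFractionRing A ℚ] {p : ℕ}

theorem unit_of (hm : ∀ n : ℤ, (n : A) ∈ IsLocalRing.maximalIdeal A ↔ (p : ℤ) ∣ n) {n : ℤ}
    (h : ¬ (p : ℤ) ∣ n) : IsUnit (n : A) := by
  rw [← hm] at h
  exact IsLocalRing.notMem_maximalIdeal.mp h

theorem val_even (hp : Irreducible (p : A))
    (hm : ∀ n : ℤ, (n : A) ∈ IsLocalRing.maximalIdeal A ↔ (p : ℤ) ∣ n) (hpp : p.Prime)
    {s : ℤ} (hs : Squarefree s) {u : A} (hu : IsUnit u) {j : ℤ}
    (h : (s : ℚ) = algebraMap A ℚ u * algebraMap A ℚ (p : A) ^ (2 * j)) :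
    ¬ (p : ℤ) ∣ s ∧ u = (s : A) := by
  have hp0 : (p : ℚ) ≠ 0 := by exact_mod_cast hpp.ne_zero
  have hpm : algebraMap A ℚ (p : A) = (p : ℚ) := map_natCast _ _
  obtain ⟨u, rfl⟩ := hu
  have hu' : algebraMap A ℚ (u : A) * algebraMap A ℚ ((u⁻¹ : Aˣ) : A) = 1 := by
    rw [← map_mul, Units.mul_inv, map_one]
  have key : ∀ n : ℤ, ¬ (p : ℤ) ∣ n → ∀ i : ℤ,
      (n : ℚ) = algebraMap A ℚ (u : A) * algebraMap A ℚ (p : A) ^ i → i = 0 := by
    intro n hn i hi
    refine Pool.Agent.W623.SecC.zpow_unit_eq (k := ℚ) (p : A) hp (n * ((u⁻¹ : Aˣ) : A))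
      ((unit_of hm hn).mul (Units.isUnit _)) i ?_
    rw [map_mul, map_intCast, hi]
    calc algebraMap A ℚ (p : A) ^ i = (algebraMap A ℚ (u : A) * algebraMap A ℚ ((u⁻¹ : Aˣ) : A)) *
          algebraMap A ℚ (p : A) ^ i := by rw [hu', one_mul]
      _ = _ := by ring
  have h1 : ¬ (p : ℤ) ∣ s := by
    rintro ⟨n, rfl⟩
    have hn : ¬ (p : ℤ) ∣ n := by
      rintro ⟨n', rfl⟩
      have h2 := hs (p : ℤ) ⟨n', by ring⟩
      exact (Nat.prime_iff_prime_int.mp hpp).not_isUnit h2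
    have h3 : 2 * j - 1 = 0 := by
      apply key n hn
      rw [hpm, zpow_sub₀ hp0, zpow_one, mul_div_assoc', eq_div_iff hp0, mul_comm]
      push_cast at h
      exact h
    omega
  refine ⟨h1, ?_⟩
  have h2 := key s h1 _ h
  rw [h2, zpow_zero, mul_one] at h
  apply IsFractionRing.injective A ℚ
  rw [← h, map_intCast]

theorem charZ : Function.Injective (Int.castRingHom A) := by
  intro a b h
  have h1 := congrArg (algebraMap A ℚ) h
  simpa using h1

theorem map_AQ (f : ℤ[X]) :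
    (f.map (Int.castRingHom A)).map (algebraMap A ℚ) = f.map (Int.castRingHom ℚ) := by
  rw [Polynomial.map_map]
  congr 1
  exact RingHom.ext_int _ _

theorem eval_cast {R : Type*} [CommRing R] (f : ℤ[X]) (n : ℤ) :
    (f.map (Int.castRingHom R)).eval (n : R) = ((f.eval n : ℤ) : R) := by
  rw [Polynomial.eval_map]
  simp

theorem sep_residue (hm : ∀ n : ℤ, (n : A) ∈ IsLocalRing.maximalIdeal A ↔ (p : ℤ) ∣ n)
    {K : Type} [Fintype K] (f : K → ℤ[X])
    (h : (∏ k, (f k).map (Int.castRingHom (ZMod p))).Separable) :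
    ((∏ k, (f k).map (Int.castRingHom A)).map (IsLocalRing.residue A)).Separable := by
  have hc : CharP (IsLocalRing.ResidueField A) p := by
    refine ⟨fun n => ?_⟩
    have h1 : ((n : ℕ) : IsLocalRing.ResidueField A) = IsLocalRing.residue A (n : A) := by simp
    rw [h1, IsLocalRing.residue_eq_zero_iff]
    have h2 := hm (n : ℤ)
    rw [Int.natCast_dvd_natCast] at h2
    rw [← h2]
    simp
  have h2 := h.map (f := ZMod.castHom (dvd_refl p) (IsLocalRing.ResidueField A))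
  rw [Polynomial.map_prod] at h2 ⊢
  convert h2 using 1
  refine Finset.prod_congr rfl fun k _ => ?_
  rw [Polynomial.map_map, Polynomial.map_map]
  congr 1
  exact RingHom.ext_int _ _

end loc

/-- the comparison of the signs -/
theorem sign_eq {p : ℕ} (hp : p.Prime) (a b n : ℤ) (ha : ¬ (p : ℤ) ∣ a) (hb : ¬ (p : ℤ) ∣ b)
    (h : (p : ℤ) ∣ a * b - n ^ 2) : jacobiSym a p = jacobiSym b p := by
  have hpp := Nat.prime_iff_prime_int.mp hp
  have hn : ¬ (p : ℤ) ∣ n := by
    intro h1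
    have h2 : (p : ℤ) ∣ a * b := by
      have := dvd_add h (dvd_pow h1 two_ne_zero)
      simpa using this
    exact (hpp.dvd_or_dvd h2).elim ha hb
  have h1 : jacobiSym (a * b) p = jacobiSym (n ^ 2) p := by
    apply jacobiSym.mod_left'
    exact Int.emod_eq_emod_iff_emod_sub_eq_zero.mpr (Int.emod_eq_zero_of_dvd h)
  have h2 : jacobiSym (n ^ 2) p = 1 := by
    apply jacobiSym.sq_one'
    rw [Int.gcd_comm]
    exact (Nat.Prime.coprime_iff_not_dvd hp).mpr fun h3 => hn (Int.natCast_dvd.mpr h3)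
  rw [jacobiSym.mul_left, h2] at h1
  exact Int.eq_of_mul_eq_one h1

/-- `f_k` does not vanish modulo `p` at a zero of `f_i` -/
theorem not_dvd_of_sep {p : ℕ} (hp : p.Prime) {K : Type} [Fintype K] [DecidableEq K]
    (f : K → ℤ[X]) (h : (∏ k, (f k).map (Int.castRingHom (ZMod p))).Separable) {i k : K}
    (hik : k ≠ i) (n : ℤ) (hi : (p : ℤ) ∣ (f i).eval n) : ¬ (p : ℤ) ∣ (f k).eval n := by
  intro hk
  have := Fact.mk hp
  have h1 : (f i).map (Int.castRingHom (ZMod p)) * (f k).map (Int.castRingHom (ZMod p)) ∣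
      ∏ k, (f k).map (Int.castRingHom (ZMod p)) := by
    rw [← Finset.mul_prod_erase Finset.univ _ (Finset.mem_univ i)]
    exact mul_dvd_mul_left _ (Finset.dvd_prod_of_mem _ (Finset.mem_erase.mpr
      ⟨hik, Finset.mem_univ k⟩))
  have h2 := (h.of_dvd h1).isCoprime
  obtain ⟨u, v, huv⟩ := h2
  have h3 := congrArg (Polynomial.eval (n : ZMod p)) huv
  rw [eval_add, eval_mul, eval_mul, eval_cast, eval_cast,
    (ZMod.intCast_zmod_eq_zero_iff_dvd _ _).mpr hi,
    (ZMod.intCast_zmod_eq_zero_iff_dvd _ _).mpr hk] at h3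
  simp at h3

/-- the local part -/
theorem local_part (h3 : SECLOC.{0, v, w}) (h4 : ZLOC) {K : Type} [Fintype K] [DecidableEq K]
    (f : K → ℤ[X]) (hev : ∀ k, Even (f k).natDegree) (h4d : 4 ≤ ∑ k, (f k).natDegree)
    (p : ℕ) (hp : p.Prime) (hp2 : 2 < p) (hlc : ∀ k, ¬ (p : ℤ) ∣ (f k).leadingCoeff)
    (hsep : (∏ k, (f k).map (Int.castRingHom (ZMod p))).Separable) (d : ℤ) (hd : Squarefree d)
    (F : Type v) (Ω : Type w) [Field F] [Field Ω] [Algebra ℚ F]
    [Algebra F Ω] [Algebra ℚ Ω] [IsScalarTower ℚ F Ω] [IsAlgClosed Ω] [Algebra.IsAlgebraic F Ω]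
    (U : Set (ValuationSubring F)) (hU : ∀ O ∈ U, ∀ c : ℚ, algebraMap ℚ F c ∈ O)
    (G : GSection ℚ F Ω U) (x y : F) (hxy : (d : F) * y ^ 2 = ∏ k, aeval x (f k))
    (hx : Transcendental ℚ x) (s : K → ℤ) (β : K → unramified F Ω U)
    (hs : ∀ k, Squarefree (s k)) (hβ : ∀ k σ, G.toHom σ (β k) = β k)
    (hsβ : ∀ k, algebraMap ℚ Ω (s k) * (β k : Ω) ^ 2 = algebraMap F Ω (aeval x (f k)))
    (i : K) (hi : (p : ℤ) ∣ s i) :
    (∀ k, k ≠ i → ¬ (p : ℤ) ∣ s k) ∧ ngs s i p ∈ Th f i p := by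
  classical
  obtain ⟨A, _, _, _, _, hfin, hfrac, hpi, hm, hres⟩ := h4 p hp
  have hpz := Nat.prime_iff_prime_int.mp hp
  -- the number `d`
  obtain ⟨t, m, ht, hd'⟩ : ∃ (t : A) (m : ℤ), IsUnit t ∧
      (d : ℚ) = algebraMap A ℚ t * algebraMap A ℚ (p : A) ^ m := by
    by_cases hpd : (p : ℤ) ∣ d
    · obtain ⟨n, rfl⟩ := hpd
      have hn : ¬ (p : ℤ) ∣ n := by
        rintro ⟨n', rfl⟩
        exact hpz.not_isUnit (hd (p : ℤ) ⟨n', by ring⟩)
      refine ⟨(n : A), 1, unit_of hm hn, ?_⟩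
      rw [map_intCast, map_natCast, zpow_one]
      push_cast
      ring
    · refine ⟨(d : A), 0, unit_of hm hpd, ?_⟩
      rw [map_intCast, zpow_zero, mul_one]
  have haev : ∀ k, aeval x (((f k).map (Int.castRingHom A)).map (algebraMap A ℚ)) =
      aeval x (f k) := by
    intro k
    rw [map_AQ, ← algebraMap_int_eq, aeval_map_algebraMap]
  have h2u : IsUnit (2 : A) := by
    have h5 : ¬ (p : ℤ) ∣ 2 := by
      intro h
      have := Int.le_of_dvd (by norm_num) h
      omega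
    have := unit_of hm h5
    simpa using this
  have hloc := h3 A ℚ F Ω h2u K (fun k => (f k).map (Int.castRingHom A))
    (fun k => by
      rw [leadingCoeff_map_of_injective (charZ (A := A))]
      exact unit_of hm (hlc k))
    (fun k => by
      rw [natDegree_map_eq_of_injective (charZ (A := A))]
      exact hev k)
    (sep_residue hm f hsep)
    (by
      refine h4d.trans (le_of_eq (Finset.sum_congr rfl fun k _ => ?_))
      rw [natDegree_map_eq_of_injective (charZ (A := A))])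
    (p : A) hpi (d : ℚ) t m ht hd' U hU G x y
    (by
      rw [map_intCast, hxy]
      exact Finset.prod_congr rfl fun k _ => (haev k).symm)
    hx (fun k => (s k : ℚ)) β (fun k => by exact_mod_cast (hs k).ne_zero) hβ
    (fun k => by rw [haev]; exact hsβ k)
  have hmo : Odd m := by
    rw [← Int.not_even_iff_odd]
    intro hme
    obtain ⟨u, j, hu, hc⟩ := hloc.1 hme i
    exact (val_even hpi hm hp (hs i) hu hc).1 hi
  obtain ⟨b, i0, hb, hl⟩ := hloc.2 hmo
  have hi0 : i = i0 := by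
    by_contra hne
    obtain ⟨u, e, j, hu, hc, -⟩ := hl i hne
    exact (val_even hpi hm hp (hs i) hu hc).1 hi
  subst hi0
  have hnd : ∀ k, k ≠ i → ¬ (p : ℤ) ∣ s k := by
    intro k hk
    obtain ⟨u, e, j, hu, hc, -⟩ := hl k hk
    exact (val_even hpi hm hp (hs k) hu hc).1
  refine ⟨hnd, ?_⟩
  -- the residue of `b`
  obtain ⟨n, hn⟩ := hres b
  set θ : ℕ := (n % p).toNat with hθ
  have hp0 : (p : ℤ) ≠ 0 := by exact_mod_cast hp.ne_zero
  have hθn : (θ : ℤ) = n % p := Int.toNat_of_nonneg (Int.emod_nonneg _ hp0)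
  have hθp : θ < p := by
    have := Int.emod_lt_of_pos n (show (0 : ℤ) < p by exact_mod_cast hp.pos)
    omega
  have hbθ : b - ((θ : ℤ) : A) ∈ IsLocalRing.maximalIdeal A := by
    have h5 : ((n - θ : ℤ) : A) ∈ IsLocalRing.maximalIdeal A := by
      rw [hm, hθn]
      exact Int.dvd_self_sub_emod
    have h6 := Ideal.add_mem _ hn h5
    have h7 : b - (n : A) + ((n - θ : ℤ) : A) = b - ((θ : ℤ) : A) := by
      push_cast
      ring
    rwa [h7] at h6
  have hev2 : ∀ k, ((f k).map (Int.castRingHom A)).eval b - (((f k).eval (θ : ℤ) : ℤ) : A) ∈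
      IsLocalRing.maximalIdeal A := by
    intro k
    rw [← eval_cast]
    exact Ideal.mem_of_dvd _ (Polynomial.sub_dvd_eval_sub _ _ _) hbθ
  have hfi : (p : ℤ) ∣ (f i).eval (θ : ℤ) := by
    rw [← hm]
    have h6 := Ideal.sub_mem _ hb (hev2 i)
    simpa using h6
  unfold Th
  rw [Finset.mem_image]
  refine ⟨θ, Finset.mem_filter.mpr ⟨Finset.mem_range.mpr hθp, hfi⟩, ?_⟩
  unfold ngs
  refine Finset.filter_congr fun k _ => ?_
  refine and_congr_right fun hk => ?_
  obtain ⟨u, e, j, hu, hc, hue⟩ := hl k hk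
  have hus := (val_even hpi hm hp (hs k) hu hc).2
  obtain ⟨n', hn'⟩ := hres e
  have h5 : ((s k * (f k).eval (θ : ℤ) - n' ^ 2 : ℤ) : A) ∈ IsLocalRing.maximalIdeal A := by
    have h6 : ((s k * (f k).eval (θ : ℤ) - n' ^ 2 : ℤ) : A) =
        (u * ((f k).map (Int.castRingHom A)).eval b - e ^ 2) -
        (s k : A) * (((f k).map (Int.castRingHom A)).eval b - (((f k).eval (θ : ℤ) : ℤ) : A)) +
        (e + n') * (e - n') := by
      rw [hus]
      push_cast
      ring
    rw [h6]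
    exact Ideal.add_mem _ (Ideal.sub_mem _ hue (Ideal.mul_mem_left _ _ (hev2 k)))
      (Ideal.mul_mem_left _ _ hn')
  rw [hm] at h5
  rw [sign_eq hp _ _ _ (hnd k hk) (not_dvd_of_sep hp f hsep hk _ hfi) h5]

/-- the global part -/
theorem global_part (h1 : SECGLOB.{0, v, w}) (h6 : SQG.{v, w}) {K : Type} [Fintype K]
    [DecidableEq K] (f : K → ℤ[X]) (hf : AdmE f)
    (hsep : (∏ k, (f k).map (Int.castRingHom ℚ)).Separable) (d : ℤ) (hd : d ≠ 0)
    (F : Type v) (Ω : Type w) [Field F] [Field Ω] [Algebra ℚ F]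
    [Algebra F Ω] [Algebra ℚ Ω] [IsScalarTower ℚ F Ω] [IsAlgClosed Ω] [Algebra.IsAlgebraic F Ω]
    (U : Set (ValuationSubring F)) (hU : ∀ O ∈ U, ∀ c : ℚ, algebraMap ℚ F c ∈ O)
    (G : GSection ℚ F Ω U) (x y : F) (hxy : (d : F) * y ^ 2 = ∏ k, aeval x (f k))
    (hx : Transcendental ℚ x) :
    ∃ (s : K → ℤ) (β : K → unramified F Ω U), (∀ k, Squarefree (s k)) ∧
      (∀ k σ, G.toHom σ (β k) = β k) ∧
      (∀ k, algebraMap ℚ Ω (s k) * (β k : Ω) ^ 2 = algebraMap F Ω (aeval x (f k))) ∧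
      IsSquare (d * ∏ k, s k) := by
  have hinj : Function.Injective (Int.castRingHom ℚ) := RingHom.injective_int _
  have hne : ∀ k, (f k).map (Int.castRingHom ℚ) ≠ 0 := fun k => (hf.1 k).ne_zero
  have haev : ∀ k, aeval x ((f k).map (Int.castRingHom ℚ)) = aeval x (f k) := by
    intro k
    rw [← algebraMap_int_eq, aeval_map_algebraMap]
  have hdeg : ∀ k, Even ((f k).map (Int.castRingHom ℚ)).natDegree := by
    intro k
    rw [natDegree_map_eq_of_injective hinj]
    exact hf.2.1 k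
  have hglob : ∀ k, ∃ (c : ℚ) (β : unramified F Ω U), c ≠ 0 ∧ (∀ σ, G.toHom σ β = β) ∧
        algebraMap ℚ Ω c * (β : Ω) ^ 2 = algebraMap F Ω (aeval x (f k)) := by
    intro k
    have := h1 ℚ F Ω (∏ k, (f k).map (Int.castRingHom ℚ)) hsep
      (by
        rw [natDegree_prod _ _ fun k _ => hne k]
        exact Finset.even_sum _ fun k _ => hdeg k)
      (d : ℚ) (by exact_mod_cast hd) U hU G x y
      (by
        rw [map_intCast, hxy, map_prod]
        exact Finset.prod_congr rfl fun k _ => (haev k).symm) hx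
      ((f k).map (Int.castRingHom ℚ)) (Finset.dvd_prod_of_mem _ (Finset.mem_univ k)) (hdeg k)
    rw [haev] at this
    exact this
  choose c β hc0 hβ hcβ using hglob
  have hsq : ∀ k, ∃ (s : ℤ) (q : ℚ), q ≠ 0 ∧ Squarefree s ∧ c k = s * q ^ 2 := by
    intro k
    have hden : ((c k).den : ℚ) ≠ 0 := by exact_mod_cast (c k).den_ne_zero
    obtain ⟨s, t, ht, hs, hst⟩ := Pool.Agent.W311.TW.exists_sqf ((c k).num * (c k).den)
      (mul_ne_zero (Rat.num_ne_zero.2 (hc0 k)) (by exact_mod_cast (c k).den_ne_zero))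
    refine ⟨s, t / (c k).den, div_ne_zero (by exact_mod_cast ht) hden, hs, ?_⟩
    have h2 : ((c k).num * (c k).den : ℚ) = s * t ^ 2 := by exact_mod_cast hst
    rw [div_pow, mul_div_assoc', ← h2]
    have e := Rat.num_div_den (c k)
    nth_rewrite 1 [← e]
    field_simp
  choose s q hq hs hcs using hsq
  have hs0 : ∀ k, s k ≠ 0 := fun k => (hs k).ne_zero
  have hβ' : ∀ k, algebraMap ℚ Ω (s k) *
      ((algebraMap F (unramified F Ω U) (algebraMap ℚ F (q k)) * β k : unramified F Ω U) : Ω) ^ 2 =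
        algebraMap F Ω (aeval x (f k)) := by
    intro k
    rw [← hcβ, hcs, map_mul, map_pow]
    have e1 : ((algebraMap F (unramified F Ω U) (algebraMap ℚ F (q k)) * β k :
        unramified F Ω U) : Ω) = algebraMap ℚ Ω (q k) * (β k : Ω) := by
      rw [IsScalarTower.algebraMap_apply ℚ F Ω (q k)]
      rfl
    rw [e1]
    ring
  have hfix : ∀ k σ, G.toHom σ (algebraMap F (unramified F Ω U) (algebraMap ℚ F (q k)) * β k) =
      algebraMap F (unramified F Ω U) (algebraMap ℚ F (q k)) * β k := by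
    intro k σ
    rw [map_mul, AlgEquiv.commutes, hβ]
  refine ⟨s, fun k => algebraMap F (unramified F Ω U) (algebraMap ℚ F (q k)) * β k, hs, hfix, hβ',
    ?_⟩
  have hx0 : ∀ k, algebraMap F Ω (aeval x (f k)) ≠ 0 := by
    intro k
    rw [Ne, map_eq_zero, ← haev]
    exact fun h => hne k ((transcendental_iff.mp hx) _ h)
  set γ : K → unramified F Ω U :=
    fun k => algebraMap F (unramified F Ω U) (algebraMap ℚ F (q k)) * β k with hγ
  have hγ0 : (∏ k, γ k) ≠ 0 := by
    rw [Finset.prod_ne_zero_iff]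
    intro k _ h0
    apply hx0 k
    have h2 := hβ' k
    have h3 : γ k = 0 := h0
    rw [← h2]
    change algebraMap ℚ Ω (s k) * ((γ k : unramified F Ω U) : Ω) ^ 2 = 0
    rw [h3]
    simp
  have hcoe : ((∏ k, γ k : unramified F Ω U) : Ω) = ∏ k, (γ k : Ω) := by
    have := map_prod (unramified F Ω U).val γ Finset.univ
    exact this
  have hprod : algebraMap ℚ Ω (∏ k, (s k : ℚ)) * ((∏ k, γ k : unramified F Ω U) : Ω) ^ 2 =
      algebraMap F Ω ((d : F) * y ^ 2) := by
    rw [hxy, map_prod, map_prod, hcoe, ← Finset.prod_pow, ← Finset.prod_mul_distrib]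
    exact Finset.prod_congr rfl fun k _ => hβ' k
  have hγΩ : ((∏ k, γ k : unramified F Ω U) : Ω) ≠ 0 := by
    intro h
    exact hγ0 (Subtype.ext h)
  have hsqq := h6 F Ω U G (algebraMap F (unramified F Ω U) ((d : F) * y) * (∏ k, γ k)⁻¹)
    ((d * ∏ k, s k : ℤ) : ℚ)
    (by
      intro σ
      rw [map_mul, AlgEquiv.commutes, map_inv₀, map_prod]
      congr 2
      exact Finset.prod_congr rfl fun k _ => hfix k σ)
    (by
      have e1 : ((algebraMap F (unramified F Ω U) ((d : F) * y) * (∏ k, γ k)⁻¹ :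
          unramified F Ω U) : Ω) =
          algebraMap F Ω ((d : F) * y) * (((∏ k, γ k : unramified F Ω U)) : Ω)⁻¹ := rfl
      rw [e1, mul_pow, inv_pow, ← div_eq_mul_inv, div_eq_iff (pow_ne_zero 2 hγΩ)]
      have e2 : algebraMap ℚ Ω ((d * ∏ k, s k : ℤ) : ℚ) =
          (d : Ω) * algebraMap ℚ Ω (∏ k, (s k : ℚ)) := by
        rw [Int.cast_mul, map_mul, map_intCast, Int.cast_prod]
      rw [e2, mul_assoc, hprod, map_mul, map_mul, map_intCast, map_pow]
      ring)
  rwa [Rat.isSquare_intCast_iff] at hsqq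

/-- S3-ARITH -/
theorem arith (h1 : Pool.Agent.W623.SecE.SECGLOB.{0, v, w})
    (h2 : Pool.Agent.W623.SecE.SECPT.{0, v, w}) (h3 : Pool.Agent.W623.SecE.SECLOC.{0, v, w})
    (h4 : Pool.Agent.W262.S3.ZLOC) (h5 : Pool.Agent.W262.S3.SEPZ)
    (h6 : Pool.Agent.W262.S3.SQG.{v, w}) : Pool.Agent.W623.SecE.ARITH.{v, w} := by
  intro K _ _ f hf hdeg
  obtain ⟨hsep, z0, hz0⟩ := h5 K f hf
  refine ⟨max 2 z0, ?_⟩
  intro d hd F Ω _ _ _ _ _ _ _ _ U hU G x y hxy
  have hinj : Function.Injective (Int.castRingHom ℚ) := RingHom.injective_int _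
  by_cases hx : Transcendental ℚ x
  · left
    obtain ⟨s, β, hs, hβ, hsβ, hsq⟩ := global_part h1 h6 f hf hsep d hd.ne_zero F Ω U hU G x y
      hxy hx
    refine ⟨s, hs, hsq, fun p hp hpz i hi => ?_⟩
    have hp1 : 2 < p := lt_of_le_of_lt (le_max_left _ _) hpz
    have hp2 : z0 < p := lt_of_le_of_lt (le_max_right _ _) hpz
    obtain ⟨hlc, hsepp⟩ := hz0 p hp hp2
    exact local_part h3 h4 f hf.2.1 hdeg p hp hp1 hlc hsepp d hd F Ω U hU G x y hxy hx s β hs hβ
      hsβ i hi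
  · right
    obtain ⟨x', y', -, -, hxy'⟩ := h2 ℚ F Ω (∏ k, (f k).map (Int.castRingHom ℚ)) (d : ℚ)
      (by exact_mod_cast hd.ne_zero) U hU G x y
      (by
        rw [map_intCast, hxy, map_prod]
        refine Finset.prod_congr rfl fun k _ => ?_
        rw [← algebraMap_int_eq, aeval_map_algebraMap]) hx
    refine sel_of_point f hf.1 ?_ ⟨x', 1, y', Or.inr one_ne_zero, ?_⟩
    · intro k
      have h7 : 0 < ((f k).map (Int.castRingHom ℚ)).natDegree := (hf.1 k).natDegree_pos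
      rw [natDegree_map_eq_of_injective hinj] at h7
      obtain ⟨m, hm⟩ := hf.2.1 k
      omega
    · rw [hxy', eval_prod]
      refine Finset.prod_congr rfl fun k _ => ?_
      rw [eval_eq_sum_range, natDegree_map_eq_of_injective hinj]
      unfold hom
      refine Finset.sum_congr rfl fun i _ => ?_
      rw [coeff_map, one_pow, mul_one, eq_intCast]

end Pool.Agent.W405.S3
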